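import Mathlib
import Pool.Agent.N173.BG.Stm

/-!
# Project MSB (helper173), leaf EXC (helper271)
-/

set_option autoImplicit false

namespace Pool.Agent.N271.BG

open Finset Pool.Agent.TH858 Pool.Agent.TH858.GP

theorem t_EXC : Pool.Agent.N173.BG.S_EXC := by
  classical
  intro N _ Γ B hB
  have hB0 : (0 : ℝ) < B := by exact_mod_cast hB
  refine ⟨Γ ∪ Γ.image (fun g => (B : ZMod N) * g), ?_, ?_⟩
  · calc (Γ ∪ Γ.image (fun g => (B : ZMod N) * g)).card
        ≤ Γ.card + (Γ.image (fun g => (B : ZMod N) * g)).card := card_union_le _ _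
      _ ≤ Γ.card + Γ.card := Nat.add_le_add_left card_image_le _
      _ = 2 * Γ.card := by ring
  · intro x hx γ hγ
    have h1 : CB.nn (γ * x) ≤ 1 / (4 * B) := hx γ (mem_union_left _ hγ)
    have h2 : CB.nn (((B : ZMod N) * γ) * x) ≤ 1 / (4 * B) :=
      hx _ (mem_union_right _ (mem_image_of_mem _ hγ))
    rw [mul_assoc] at h2
    generalize γ * x = c at h1 h2 ⊢
    obtain ⟨θ, hθ⟩ : ∃ θ : ℝ, θ = (c.val : ℝ) / N + ((-round ((c.val : ℝ) / N) : ℤ) : ℝ) :=
      ⟨_, rfl⟩
    have hmul : CB.nint ((B : ℝ) * θ) = CB.nn ((B : ZMod N) * c) := by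
      have := CB.nint_mul c ((B : ℕ) : ℤ) (-round ((c.val : ℝ) / N))
      rw [hθ]
      push_cast at this ⊢
      exact this
    have hθabs : |θ| = CB.nn c := by
      rw [hθ]
      unfold CB.nn CB.nint
      congr 1
      push_cast
      ring
    have h3 : |(B : ℝ) * θ| ≤ 1 / 4 := by
      rw [abs_mul, abs_of_pos hB0, hθabs]
      calc (B : ℝ) * CB.nn c ≤ B * (1 / (4 * B)) := mul_le_mul_of_nonneg_left h1 hB0.le
        _ = 1 / 4 := by field_simp
    have h4 : CB.nint ((B : ℝ) * θ) = |(B : ℝ) * θ| := CB.nint_of_small (by linarith)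
    rw [← hmul, h4, abs_mul, abs_of_pos hB0, hθabs] at h2
    have h5 : CB.nn c ≤ 1 / (4 * B) / B := by
      rw [le_div_iff₀ hB0]
      linarith
    calc CB.nn c ≤ 1 / (4 * B) / B := h5
      _ = 1 / (4 * (B : ℝ) ^ 2) := by
        rw [div_div]
        congr 1
        ring

end Pool.Agent.N271.BG
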